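import Pool.Agent.KS6_78.ISP.StarExact

/-!
# MP_f6f975_co — minimum order of graphs with a prescribed independent set permutation

`indCount G k` is the number of independent sets of size `k` of `G`.  A permutation
`π(1) … π(m)` of `{1,…,m}` is encoded as `π : Equiv.Perm (Fin m)`, an element `i : Fin m` standing
for the number `i + 1`; `IsISP π G` says that `α(G) = m` and
`i_{π(1)}(G) ≤ … ≤ i_{π(m)}(G)`, and `orders π` is the set of all orders of such graphs, so that
`g(π)` is the least element of `orders π`.  `π.symm a < π.symm b` says that `a` precedes `b`.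
-/

namespace Pool.Agent.Results.MP_f6f975_co.ExactFamily

open Pool.Agent.KS6_78.ISP

/-- Let `m ≥ 3` and let `π` be a permutation of `{1,…,m}` in which `m-1` precedes `m`, the numbers
`3, 4, …, m` appear in increasing order and `2` precedes `1`.  If `J` is the largest number
preceding `1`, then `g(π) = C(m,J) m^J`.  (`s`, `t`, `z`, `o`, `J` stand for `m-1`, `m`, `1`, `2`,
`J + 1`.) -/
theorem result (m : ℕ) (hm : 3 ≤ m) (π : Equiv.Perm (Fin m)) (s t z o J : Fin m)
    (hs : (s : ℕ) + 2 = m) (ht : (t : ℕ) + 1 = m) (hz : (z : ℕ) = 0) (ho : (o : ℕ) = 1)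
    (hst : π.symm s < π.symm t) (hoz : π.symm o < π.symm z)
    (hinc : ∀ a b : Fin m, 2 ≤ (a : ℕ) → a < b → π.symm a < π.symm b)
    (hJ : π.symm J < π.symm z) (hJmax : ∀ b, π.symm b < π.symm z → b ≤ J) :
    IsLeast (orders π) (m.choose (J + 1) * m ^ ((J : ℕ) + 1)) :=
  exact_star m hm π s t z o J hs ht hz ho hst hoz hinc hJ hJmax

end Pool.Agent.Results.MP_f6f975_co.ExactFamily
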