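import Pool.Agent.KS6_78.ISP.Ident

/-!
# MP_f6f975_co — minimum order of graphs with a prescribed independent set permutation

`indCount G k` is the number of independent sets of size `k` of `G`.  A permutation
`π(1) … π(m)` of `{1,…,m}` is encoded as `π : Equiv.Perm (Fin m)`, an element `i : Fin m` standing
for the number `i + 1`; `IsISP π G` says that `α(G) = m` and
`i_{π(1)}(G) ≤ … ≤ i_{π(m)}(G)`, and `orders π` is the set of all orders of such graphs, so that
`g(π)` is the least element of `orders π`.  `π.symm a < π.symm b` says that `a` precedes `b`.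
-/

namespace Pool.Agent.Results.MP_f6f975_co.IdentityOnly

open Pool.Agent.KS6_78.ISP

/-- If `m - 1` precedes `m` in `π` then `g(π) ≥ m²`, and some graph of order `m²` has independent
set permutation `π` if and only if `π` is the identity `1 2 … m`. -/
theorem result (m : ℕ) (π : Equiv.Perm (Fin m)) (s t : Fin m) (hs : (s : ℕ) + 2 = m)
    (ht : (t : ℕ) + 1 = m) (hpre : π.symm s < π.symm t) :
    (∀ n ∈ orders π, m ^ 2 ≤ n) ∧ (m ^ 2 ∈ orders π ↔ π = 1) :=
  ident m π s t hs ht hpre

end Pool.Agent.Results.MP_f6f975_co.IdentityOnly
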