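import Pool.Agent.KS6_78.ISP.Pairs

/-!
# MP_f6f975_co — minimum order of graphs with a prescribed independent set permutation

`indCount G k` is the number of independent sets of size `k` of `G`.  A permutation
`π(1) … π(m)` of `{1,…,m}` is encoded as `π : Equiv.Perm (Fin m)`, an element `i : Fin m` standing
for the number `i + 1`; `IsISP π G` says that `α(G) = m` and
`i_{π(1)}(G) ≤ … ≤ i_{π(m)}(G)`, and `orders π` is the set of all orders of such graphs, so that
`g(π)` is the least element of `orders π`.  `π.symm a < π.symm b` says that `a` precedes `b`.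
-/

namespace Pool.Agent.Results.MP_f6f975_co.LowerBound

open Pool.Agent.KS6_78.ISP

/-- Let `S = s + 1 < L = l + 1` precede `L` in `π`, let `J = j + 1 ≤ L`, and let `J` not come after
`K = κ + 1` (`J = K` is allowed).  Then every graph with independent set permutation `π` has an
order `n` with `(m^K * C(m,J))^(L-S) * C(m,S)^J ≤ (C(m,K) * n^K)^(L-S) * C(m,L)^J`.
For `L = m`, `S = J = m - 1` and `K = 1` this is `m^m ≤ n`. -/
theorem result (m : ℕ) (π : Equiv.Perm (Fin m)) (s l j κ : Fin m)
    (hsl : s < l) (hpre : π.symm s < π.symm l) (hjl : j ≤ l) (hj : π.symm j ≤ π.symm κ) :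
    ∀ n ∈ orders π,
      (m ^ ((κ : ℕ) + 1) * m.choose (j + 1)) ^ ((l : ℕ) - s) * (m.choose (s + 1)) ^ ((j : ℕ) + 1)
        ≤ (m.choose (κ + 1) * n ^ ((κ : ℕ) + 1)) ^ ((l : ℕ) - s)
          * (m.choose (l + 1)) ^ ((j : ℕ) + 1) := by
  rintro n ⟨G, hG⟩
  have := lower_pairs G π hG s l j κ hsl hpre hjl hj
  rwa [Fintype.card_fin] at this

end Pool.Agent.Results.MP_f6f975_co.LowerBound
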