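import Pool.Agent.KS6_78.ISP.Turan2

/-!
# MP_f6f975_co — minimum order of graphs with a prescribed independent set permutation

`indCount G k` is the number of independent sets of size `k` of `G`.  A permutation
`π(1) … π(m)` of `{1,…,m}` is encoded as `π : Equiv.Perm (Fin m)`, an element `i : Fin m` standing
for the number `i + 1`; `IsISP π G` says that `α(G) = m` and
`i_{π(1)}(G) ≤ … ≤ i_{π(m)}(G)`, and `orders π` is the set of all orders of such graphs, so that
`g(π)` is the least element of `orders π`.  `π.symm a < π.symm b` says that `a` precedes `b`.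
-/

namespace Pool.Agent.Results.MP_f6f975_co.TuranFamily

open Pool.Agent.KS6_78.ISP

/-- Write `w(k) = C(m,k) a^k`.  Let `a ≥ 1` and let `S = s + 1 < m` satisfy
`C(m,S) = a * C(m,S+1)`, that is `w(S) = w(S+1)`.  Let `S` precede `S + 1` in `π`, and let
`J = j + 1 ≤ S + 1` be `1` or a number preceding `1` (`z` stands for `1`).  If `π` lists the numbers
`k ≥ 2` by non-decreasing `w(k)`, and `w(k) ≤ w(J)` for `k = 1` and all `k` before `1`, and
`w(J) ≤ w(k)` for all `k` after `1`, then `g(π) = w(J)`. -/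
theorem result (m a : ℕ) (ha : 1 ≤ a) (π : Equiv.Perm (Fin m)) (s l j z : Fin m)
    (hsl : (l : ℕ) = s + 1) (hz : (z : ℕ) = 0) (hC : m.choose (s + 1) = a * m.choose (s + 2))
    (hpre : π.symm s < π.symm l) (hjl : j ≤ l) (hjz : π.symm j ≤ π.symm z)
    (hsort : ∀ x y : Fin m, 1 ≤ (x : ℕ) → 1 ≤ (y : ℕ) → π.symm x ≤ π.symm y →
      m.choose ((x : ℕ) + 1) * a ^ ((x : ℕ) + 1) ≤ m.choose ((y : ℕ) + 1) * a ^ ((y : ℕ) + 1))
    (hbefore : ∀ x : Fin m, π.symm x ≤ π.symm z →
      m.choose ((x : ℕ) + 1) * a ^ ((x : ℕ) + 1) ≤ m.choose ((j : ℕ) + 1) * a ^ ((j : ℕ) + 1))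
    (hafter : ∀ x : Fin m, π.symm z < π.symm x →
      m.choose ((j : ℕ) + 1) * a ^ ((j : ℕ) + 1) ≤ m.choose ((x : ℕ) + 1) * a ^ ((x : ℕ) + 1)) :
    IsLeast (orders π) (m.choose ((j : ℕ) + 1) * a ^ ((j : ℕ) + 1)) :=
  exact_turan_gen m a ha π s l j z hsl hz hC hpre hjl hjz hsort hbefore hafter

end Pool.Agent.Results.MP_f6f975_co.TuranFamily
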